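import Pool.Agent.Q225.Jit.Defs
import Pool.Agent.Q225.Jit.Red
import Pool.Agent.Q225.Jit.NP

set_option autoImplicit false

/-!
# Feasibility of prescribed cyclic distance profiles in just-in-time sequences is NP-complete

The definitions (`Inst`, `IsDecomposition`, `Legal`, `positions`, `distances`, `IsJit`, `Feasible`,
`Feas`, `NPCompleteP`) are in `Pool/Agent/Q225/Jit/Defs.lean`; `InNPP` and `NPHardP` (membership in
NP and NP-hardness of a decision problem about encoded data, under polynomial-time many-one
reductions) are in `Pool/Agent/NPC/Defs.lean`.

The reduction is from bin packing with numbers in unary (and, to begin with, from exact cover by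
3-sets). Given `b` bins of capacity `B` and items of sizes `s₁, …, sₙ` whose sum is `b B`, the first
letter occurs `b` times and has all its distances equal to `B + 1`, so it cuts the circle into `b`
windows of length `B`; the letter of the item `i` occurs `sᵢ` times, with the distance `1`
(`sᵢ - 1` times) and the distance `D - sᵢ + 1` (once), so it occupies an interval of length `sᵢ`.
-/

namespace Pool.Agent.Results.MP_0403ae_lc.FeasNPComplete

open Pool.Agent.Q225.Jit

/-- **FEAS is NP-complete.** -/
theorem result : NPCompleteP Feas := ⟨inNP, hard⟩

end Pool.Agent.Results.MP_0403ae_lc.FeasNPComplete
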